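import Pool.Agent.Y559.DS.Branch

set_option autoImplicit false
open scoped Pointwise

namespace Pool.Agent.Results.MP_dd2a7c_co.BranchingSubsets

open Finset

/-- Let `G` be an abelian group, `n` arbitrary, and let `A ⊆ G ^ n` be finite and nonempty with
`|A + A| ≤ K |A|`, where `k g ≠ 0` for all nonzero `g` in `G` and `1 ≤ k ≤ |A + A|` (any torsion-free
`G`, and `G = ℤ / p` with `p > |A + A|`).  Then `A` contains a set `B` with `|A| ≤ 64 K ^ 5 |B|` that
is uniformly branching: there are numbers `x i` such that for every `y` in `B` and every `i`,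
the elements of `B` with the same first `i` coordinates as `y` take exactly `x i + 1` values at the
next coordinate; so `|B| = ∏ (x i + 1)`.  At most `log (2 K) / log 2` of the `x i` are nonzero.
Moreover `A` is covered by `64 K ^ 6` translates of `B - B`. -/
theorem result {G : Type*} [AddCommGroup G] [DecidableEq G] (n : ℕ) (K : ℝ)
    (A : Finset (Fin n → G)) (hA : A.Nonempty) (hK : ((A + A).card : ℝ) ≤ K * (A.card : ℝ))
    (hG : ∀ g : G, g ≠ 0 → ∀ k : ℕ, 0 < k → k ≤ (A + A).card → k • g ≠ 0) :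
    ∃ (x : Fin n → ℕ) (B F : Finset (Fin n → G)), B ⊆ A ∧
      (2 : ℝ) ^ (univ.filter (fun i => x i ≠ 0)).card ≤ 2 * K ∧
      (A.card : ℝ) ≤ 64 * K ^ 5 * (B.card : ℝ) ∧
      B.card = ∏ i, (x i + 1) ∧
      (∀ i, ∀ y ∈ B, ((B.filter (fun z => ∀ j < i, z j = y j)).image (fun z => z i)).card =
        x i + 1) ∧
      F ⊆ A ∧ (F.card : ℝ) ≤ 64 * K ^ 6 ∧ A ⊆ F + (B - B) :=
  Pool.Agent.Y559.DS.branching K A hA hK hG

end Pool.Agent.Results.MP_dd2a7c_co.BranchingSubsets
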