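import Pool.Agent.Y806.DF.D

/-!
# The polynomial Freiman-Ruzsa conjecture: the bound for the dimension comes for free

`re v` is the real vector of the integer vector `v`, `lat B` the set of the integer points of `B`,
`hull X` the set of the integer points of the convex hull of the finite set `X` of integer points,
`Body B` says that `B` is a centrally symmetric convex body, `Cov B ψ H T A` that `A` is covered by
the translates by `T` of the centred convex coset progression `ψ(ℤ^r ∩ B) + H`; all are defined in
`Pool.Agent.Y806.DF`.

`Data K A X ψ H g`: `X` is a nonempty finite set of integer points of `ℝ^d`, of ANY dimension `d`,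
with `|X + X| ≤ K |X|`, which is dense in its convex hull, `|conv X ∩ ℤ^d| ≤ K |X|` (for instance
all the integer points of a convex set, not necessarily symmetric), `H` is a finite subgroup,
`|X| |H| ≤ K |A|`, and at least `|A| / K` elements of `A` are in `g + ψ(X) + H`.

Proof. By the weak Marton theorem (a starting result of this problem) a large part `Y` of `X` is in a coset of
a group of rank `r = O(log K)`. Some point `c` of this lattice is the midpoint of `≥ |Y| / (4^r K^186)`
pairs of elements of `Y`; the part of `Y` that is symmetric about `c` has a convex hull `c + B`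
with `B` centrally symmetric, and `B` contains at most `K |X|` lattice points. By the covering lemma
of Ruzsa, `X` is covered by `K^372 4^r` translates of the lattice points of `2 B`, and these by
`1024^r K^2` translates of those of a dilate of `B` of the required volume.
-/

set_option autoImplicit false

namespace Pool.Agent.Results.MP_dd2a7c_co.DimensionFree

open Finset
open scoped Pointwise
open Pool.Agent.Y806.DF

universe u

/-- **The bound for the dimension in the polynomial Freiman-Ruzsa conjecture comes for free.**
(1) If a set `A` with `|A + A| ≤ K |A|` in an abelian group has a large intersection with a coset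
progression `g + ψ(X) + H` of any dimension `d`, where `X ⊆ ℤ^d` has doubling at most `K` and is
dense in its convex hull, then `A` is covered by `5000 K ^ 5000` translates of a centred convex coset
progression of dimension at most `500 log (2 K)` and volume at most `|A|`: the conclusion of Q1.
(2) In particular this is true of each set of integer points of `ℝ^d`, `d` arbitrary, which is dense
in its convex hull, for instance of all the integer points of a convex set.
(3) Q1 is equivalent to the statement that there are such `X`, `ψ`, `H`, with `C K ^ C` in place
of `K`, for each `A`: no bound for the dimension has to be proved. -/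
theorem result :
    (∀ (Γ : Type u) [AddCommGroup Γ] [DecidableEq Γ] (K : ℝ) (A : Finset Γ), A.Nonempty →
      ((A + A).card : ℝ) ≤ K * A.card →
      ∀ (d : ℕ) (X : Finset (Fin d → ℤ)) (ψ : (Fin d → ℤ) →+ Γ) (H : AddSubgroup Γ) (g : Γ),
        Data K A X ψ H g →
        ∃ (r : ℕ) (B : Set (Fin r → ℝ)) (θ : (Fin r → ℤ) →+ Γ) (H' : AddSubgroup Γ) (T : Finset Γ),
          (r : ℝ) ≤ 500 * Real.log (2 * K) ∧ Body B ∧ Finite H' ∧
          (lat B).ncard * Nat.card H' ≤ A.card ∧ (T.card : ℝ) ≤ 5000 * K ^ 5000 ∧
          Cov B θ H' T A) ∧
    (∀ (d : ℕ) (K : ℝ) (A : Finset (Fin d → ℤ)), A.Nonempty →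
      ((A + A).card : ℝ) ≤ K * A.card → ((hull A).ncard : ℝ) ≤ K * A.card →
        ∃ (r : ℕ) (B : Set (Fin r → ℝ)) (θ : (Fin r → ℤ) →+ (Fin d → ℤ))
          (H' : AddSubgroup (Fin d → ℤ)) (T : Finset (Fin d → ℤ)),
          (r : ℝ) ≤ 500 * Real.log (2 * K) ∧ Body B ∧ Finite H' ∧
          (lat B).ncard * Nat.card H' ≤ A.card ∧ (T.card : ℝ) ≤ 5000 * K ^ 5000 ∧
          Cov B θ H' T A) ∧
    (PFR.{u} ↔ DimFree.{u}) := by
  refine ⟨?_, ?_, imp_free, free_imp⟩
  · intro Γ _ _ K A hA hK d X ψ H g hD
    exact main hA hK hD
  · intro d K A hA hK hh
    exact main hA hK (dense_sets hA hK hh)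

end Pool.Agent.Results.MP_dd2a7c_co.DimensionFree
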