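import Pool.Agent.Y354.PB.Final2

set_option autoImplicit false
open scoped Pointwise

namespace Pool.Agent.Results.MP_dd2a7c_co.PolylogFoldSums

/-- Polynomial Freiman-Ruzsa theorem up to polylogarithmic sums, in an arbitrary abelian group.
For `0 < ε ≤ 1`, a natural number `R ≥ 1` and a finite nonempty set `A` with `|A+A| ≤ K|A|` there
is a centred convex coset progression `ψ(ℤ^d ∩ B) + H` of dimension at most `720 log (2K)` such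
that `(2K)^(720/ε)` of its translates (by elements of `A`) cover `A`, and such that its `R`-dilate
`ψ(ℤ^d ∩ RB) + H` is proper, has volume at most
`exp ((500000/ε) log (2K) (R² log (2K))^ε) |A|`, and is contained in `NA - NA` for some
`N ≤ (6·10⁷/ε)³ (R² log (2K))^(2+ε)`. -/
theorem result {Γ : Type*} [AddCommGroup Γ] [DecidableEq Γ] (ε K : ℝ) (hε : 0 < ε) (hε1 : ε ≤ 1)
    (R : ℕ) (hR : 1 ≤ R)
    (A : Finset Γ) (hA : A.Nonempty) (hK : ((A + A).card : ℝ) ≤ K * (A.card : ℝ)) :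
    ∃ (N d : ℕ) (B : Set (Fin d → ℝ)) (ψ : (Fin d → ℤ) →+ Γ) (H : AddSubgroup Γ) (T : Finset Γ),
      (N : ℝ) ≤ (60000000 / ε) ^ 3 * ((R : ℝ) ^ 2 * Real.log (2 * K)) ^ (2 + ε) ∧
      (d : ℝ) ≤ 720 * Real.log (2 * K) ∧
      Convex ℝ B ∧ IsCompact B ∧ (interior B).Nonempty ∧ (∀ x ∈ B, -x ∈ B) ∧
      Finite H ∧
      (∀ x : Fin d → ℤ, (fun i => (x i : ℝ) / R) ∈ B → ∀ h ∈ H, ∃ u v : Fin N → Γ,
        (∀ i, u i ∈ A) ∧ (∀ i, v i ∈ A) ∧ ψ x + h = ∑ i, u i - ∑ i, v i) ∧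
      (∀ x y : Fin d → ℤ, (fun i => (x i : ℝ) / R) ∈ B → (fun i => (y i : ℝ) / R) ∈ B →
        ∀ h ∈ H, ∀ k ∈ H, ψ x + h = ψ y + k → x = y ∧ h = k) ∧
      ({x : Fin d → ℤ | (fun i => (x i : ℝ) / R) ∈ B}.ncard * Nat.card H : ℝ) ≤
        Real.exp (500000 / ε * Real.log (2 * K) * ((R : ℝ) ^ 2 * Real.log (2 * K)) ^ ε) *
          (A.card : ℝ) ∧
      T ⊆ A ∧ (T.card : ℝ) ≤ (2 * K) ^ (720 / ε) ∧
      ∀ a ∈ A, ∃ t ∈ T, ∃ x : Fin d → ℤ, (fun i => (x i : ℝ)) ∈ B ∧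
        ∃ h ∈ H, a = t + ψ x + h := by
  obtain ⟨N, d, B, ψ, H, T, hN, hd, hB, hH, hin, hinj, hvol, hTA, hT, hcov⟩ :=
    Pool.Agent.Y354.PB.main_all hε hε1 hR hA hK
  exact ⟨N, d, B, ψ, H, T, hN, hd, hB.1, hB.2.1, hB.2.2.1, hB.2.2.2, hH,
    fun x hx h hh => Pool.Agent.Y354.PB.DS_fin (hin x hx h hh), hinj, hvol, hTA, hT, hcov⟩

end Pool.Agent.Results.MP_dd2a7c_co.PolylogFoldSums
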