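import Pool.Agent.TH414.Dil.Final

set_option autoImplicit false
open scoped Pointwise

universe u

namespace Pool.Agent.Results.MP_dd2a7c_co.SharpUniformDilates

/-- Sets all of whose sums of dilates are small, with the sharp number of cosets.

Let `Γ` be an abelian group and `A ⊆ Γ` finite and nonempty with `|A + n A| ≤ K |A|` for all
natural numbers `n`, where `n A = {n a : a ∈ A}`. Then `A` is covered by at most `K` cosets of a
finite subgroup. If moreover `Γ` has no element of prime order `p ≤ 16 K ^ 4`, then `A` is covered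
by at most `K` cosets of a finite subgroup of order at most `2 K |A|`, and by at most `8 K ^ 2`
translates of a centred convex coset progression of dimension `1` and volume at most `|A|`. -/
theorem result (Γ : Type u) [AddCommGroup Γ] [DecidableEq Γ] (K : ℝ) (A : Finset Γ)
    (hA : A.Nonempty)
    (hdil : ∀ n : ℕ, ((A + A.image (fun a => n • a)).card : ℝ) ≤ K * (A.card : ℝ)) :
    (∃ (H : AddSubgroup Γ) (T : Finset Γ), Finite H ∧ (T.card : ℝ) ≤ K ∧
      ∀ a ∈ A, ∃ t ∈ T, a - t ∈ H) ∧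
    ((∀ p : ℕ, p.Prime → (p : ℝ) ≤ 16 * K ^ 4 → ∀ x : Γ, p • x = 0 → x = 0) →
      (∃ (H : AddSubgroup Γ) (T : Finset Γ), Finite H ∧ (Nat.card H : ℝ) ≤ 2 * K * A.card ∧
        (T.card : ℝ) ≤ K ∧ ∀ a ∈ A, ∃ t ∈ T, a - t ∈ H) ∧
      (∃ (B : Set (Fin 1 → ℝ)) (ψ : (Fin 1 → ℤ) →+ Γ) (H : AddSubgroup Γ) (T : Finset Γ),
        Convex ℝ B ∧ IsCompact B ∧ (interior B).Nonempty ∧ (∀ x ∈ B, -x ∈ B) ∧
        Finite H ∧
        {x : Fin 1 → ℤ | (fun i => (x i : ℝ)) ∈ B}.ncard * Nat.card H ≤ A.card ∧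
        (T.card : ℝ) ≤ 8 * K ^ 2 ∧
        ∀ a ∈ A, ∃ t ∈ T, ∃ x : Fin 1 → ℤ, (fun i => (x i : ℝ)) ∈ B ∧
          ∃ h ∈ H, a = t + ψ x + h)) := by
  rename_i d
  have hA0 : (0 : ℝ) < A.card := by exact_mod_cast hA.card_pos
  have hK : 1 ≤ K := by
    have h1 := hdil 0
    have h2 : (A.card : ℝ) ≤ ((A + A.image (fun a => 0 • a)).card : ℝ) := by
      have hne : (A.image (fun a : Γ => 0 • a)).Nonempty := hA.image _
      exact_mod_cast Finset.card_le_card_add_right hne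
    nlinarith
  have hd : d = (fun a b => Classical.propDecidable (a = b)) := Subsingleton.elim _ _
  subst hd
  refine ⟨?_, fun hΓ => ⟨?_, ?_⟩⟩
  · obtain ⟨U, hfin, hc⟩ := Pool.Agent.TH414.Dil.start A hA K hdil
    obtain ⟨X, hX, hcov⟩ := Pool.Agent.TH414.Dil.reps U A
    exact ⟨U, X, hfin, by rw [hX]; exact hc, hcov⟩
  · obtain ⟨U, hfin, hc, hU⟩ := Pool.Agent.TH414.Dil.structure_thm A hA K hK hΓ hdil
    obtain ⟨X, hX, hcov⟩ := Pool.Agent.TH414.Dil.reps U A
    exact ⟨U, X, hfin, hU, by rw [hX]; exact hc, hcov⟩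
  · obtain ⟨U, hfin, hc, hU⟩ := Pool.Agent.TH414.Dil.structure_thm A hA K hK hΓ hdil
    exact Pool.Agent.TH414.Dil.q1_form A hA K hK U hc hU

end Pool.Agent.Results.MP_dd2a7c_co.SharpUniformDilates
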